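import Pool.Agent.W895.FL.Stm

/-!
# FL-CNT: counting labellings
-/

set_option autoImplicit false

open Finset

namespace Pool.Agent.W342.FL

open Pool.Agent.W895.FL
open Equiv (Perm)

/-- the labellings with a given value all have the same number -/
theorem card_class (w : ℕ) (j : Fin (w + 1)) :
    (univ.filter (fun σ : Perm (Fin (w + 1)) => σ.symm 0 = j)).card =
      (univ.filter (fun σ : Perm (Fin (w + 1)) => σ.symm 0 = 0)).card := by
  refine Finset.card_bij' (fun σ _ => (Equiv.swap 0 j).trans σ) (fun σ _ => (Equiv.swap 0 j).trans σ)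
    ?_ ?_ ?_ ?_
  · intro σ hσ
    simp only [mem_filter, mem_univ, true_and] at hσ ⊢
    simp [hσ]
  · intro σ hσ
    simp only [mem_filter, mem_univ, true_and] at hσ ⊢
    simp [hσ]
  · intro σ _
    ext x
    simp
  · intro σ _
    ext x
    simp

theorem card_total (w : ℕ) : Fintype.card (Perm (Fin (w + 1))) =
    (w + 1) * (univ.filter (fun σ : Perm (Fin (w + 1)) => σ.symm 0 = 0)).card := by
  have h := Finset.card_eq_sum_card_fiberwise (s := (univ : Finset (Perm (Fin (w + 1)))))
    (t := (univ : Finset (Fin (w + 1)))) (f := fun σ => σ.symm 0) (fun _ _ => mem_univ _)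
  rw [← Finset.card_univ, h]
  rw [Finset.sum_congr rfl (fun j _ => card_class w j)]
  simp

theorem t_CNT : S_CNT := by
  intro T w
  set c1 := (univ.filter (fun σ : Perm (Fin (w + 1)) => σ.symm 0 = 0)).card with hc1
  have hpos : 0 < c1 := by
    apply Finset.card_pos.2
    exact ⟨Equiv.refl _, by simp⟩
  refine ⟨c1 ^ (T + 1), pow_pos hpos _, ?_, ?_⟩
  · intro j
    have e : (univ.filter (fun lam : Fin (T + 1) → Perm (Fin (w + 1)) =>
        ∀ i, (lam i).symm 0 = j i)) =
        Fintype.piFinset (fun i => univ.filter (fun σ : Perm (Fin (w + 1)) => σ.symm 0 = j i)) := by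
      ext lam
      simp [Fintype.mem_piFinset]
    rw [e, Fintype.card_piFinset, Finset.prod_congr rfl (fun i _ => card_class w (j i))]
    simp [hc1]
  · rw [Fintype.card_fun, card_total, ← hc1, Fintype.card_fin, mul_pow]

end Pool.Agent.W342.FL
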